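import Mathlib
import Pool.Agent.H4R2.LO.Defs

set_option autoImplicit false

/-! Job LE-CUBE of helper218, the counting. -/

namespace Pool.Agent.Q176.LE

open Finset
open Pool.Agent.H4R2.LO (Zd bx)

/-- the cube `[0, R)^d` -/
noncomputable def qb (d R : ℕ) : Finset (Zd d) := Fintype.piFinset (fun _ : Fin d => Finset.Ico (0 : ℤ) R)

theorem mem_qb {d R : ℕ} {h : Zd d} : h ∈ qb d R ↔ ∀ i, 0 ≤ h i ∧ h i < R := by
  unfold qb
  rw [Fintype.mem_piFinset]
  simp only [Finset.mem_Ico]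

theorem card_qb (d R : ℕ) : (qb d R).card = R ^ d := by
  unfold qb
  rw [Fintype.card_piFinset]
  simp

/-- the part of the cube which leaves it -/
theorem shift_card (d R r : ℕ) (w : Zd d) (hw : ∀ i, |w i| ≤ r) :
    ((qb d R).filter (fun h => h + w ∉ qb d R)).card ≤ d * (r * R ^ (d - 1)) := by
  classical
  have hslab : ∀ i, ((Finset.Ico (0 : ℤ) R).filter (fun t => t + w i ∉ Finset.Ico (0 : ℤ) R)).card ≤
      r := by
    intro i
    have hwi := abs_le.1 (hw i)
    rcases le_total 0 (w i) with h0 | h0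
    · have h1 : (Finset.Ico (0 : ℤ) R).filter (fun t => t + w i ∉ Finset.Ico (0 : ℤ) R) ⊆
          Finset.Ico ((R : ℤ) - w i) R := by
        intro t ht
        rw [Finset.mem_filter, Finset.mem_Ico, Finset.mem_Ico] at ht
        rw [Finset.mem_Ico]
        omega
      refine (Finset.card_le_card h1).trans ?_
      rw [Int.card_Ico]
      omega
    · have h1 : (Finset.Ico (0 : ℤ) R).filter (fun t => t + w i ∉ Finset.Ico (0 : ℤ) R) ⊆
          Finset.Ico (0 : ℤ) (-w i) := by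
        intro t ht
        rw [Finset.mem_filter, Finset.mem_Ico, Finset.mem_Ico] at ht
        rw [Finset.mem_Ico]
        omega
      refine (Finset.card_le_card h1).trans ?_
      rw [Int.card_Ico]
      omega
  have hsub : (qb d R).filter (fun h => h + w ∉ qb d R) ⊆ Finset.univ.biUnion (fun i : Fin d =>
      Fintype.piFinset (Function.update (fun _ : Fin d => Finset.Ico (0 : ℤ) R) i
        ((Finset.Ico (0 : ℤ) R).filter (fun t => t + w i ∉ Finset.Ico (0 : ℤ) R)))) := by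
    intro h hh
    rw [Finset.mem_filter] at hh
    obtain ⟨h1, h2⟩ := hh
    rw [mem_qb] at h1
    rw [mem_qb] at h2
    push Not at h2
    obtain ⟨i, hi⟩ := h2
    rw [Finset.mem_biUnion]
    refine ⟨i, Finset.mem_univ _, ?_⟩
    rw [Fintype.mem_piFinset]
    intro j
    by_cases hj : j = i
    · subst hj
      rw [Function.update_self, Finset.mem_filter, Finset.mem_Ico, Finset.mem_Ico]
      refine ⟨h1 j, fun h3 => ?_⟩
      have h4 := hi h3.1
      have h5 : (h + w) j = h j + w j := rfl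
      rw [h5] at h4
      omega
    · rw [Function.update_of_ne hj, Finset.mem_Ico]
      exact h1 j
  refine (Finset.card_le_card hsub).trans (Finset.card_biUnion_le.trans ?_)
  have hc : ∀ i : Fin d, (Fintype.piFinset (Function.update (fun _ : Fin d => Finset.Ico (0 : ℤ) R) i
        ((Finset.Ico (0 : ℤ) R).filter (fun t => t + w i ∉ Finset.Ico (0 : ℤ) R)))).card ≤
        r * R ^ (d - 1) := by
    intro i
    rw [Fintype.card_piFinset]
    have e1 : ∀ j, (Function.update (fun _ : Fin d => Finset.Ico (0 : ℤ) R) i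
        ((Finset.Ico (0 : ℤ) R).filter (fun t => t + w i ∉ Finset.Ico (0 : ℤ) R)) j).card =
        Function.update (fun _ : Fin d => R) i
          ((Finset.Ico (0 : ℤ) R).filter (fun t => t + w i ∉ Finset.Ico (0 : ℤ) R)).card j := by
      intro j
      by_cases hj : j = i
      · subst hj
        rw [Function.update_self, Function.update_self]
      · rw [Function.update_of_ne hj, Function.update_of_ne hj]
        simp
    rw [Finset.prod_congr rfl fun j _ => e1 j, Finset.prod_update_of_mem (Finset.mem_univ i),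
      Finset.prod_const]
    have e2 : (Finset.univ \ {i} : Finset (Fin d)).card = d - 1 := by
      rw [Finset.card_sdiff]
      simp
    rw [e2]
    exact Nat.mul_le_mul_right _ (hslab i)
  calc ∑ i : Fin d, (Fintype.piFinset (Function.update (fun _ : Fin d => Finset.Ico (0 : ℤ) R) i
        ((Finset.Ico (0 : ℤ) R).filter (fun t => t + w i ∉ Finset.Ico (0 : ℤ) R)))).card
      ≤ ∑ _i : Fin d, r * R ^ (d - 1) := Finset.sum_le_sum fun i _ => hc i
    _ = d * (r * R ^ (d - 1)) := by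
        rw [Finset.sum_const, Finset.card_univ, Fintype.card_fin, smul_eq_mul]

/-- sums over shifted cubes -/
theorem shift_sum (d R r : ℕ) (w : Zd d) (hw : ∀ i, |w i| ≤ r) (f : Zd d → ℝ)
    (hf : ∀ x, |f x| ≤ 1) :
    |∑ h ∈ qb d R, f h - ∑ h ∈ qb d R, f (h + w)| ≤ 2 * (d * (r * (R : ℝ) ^ (d - 1))) := by
  classical
  have hb : ∀ s : Finset (Zd d), ∀ g : Zd d → ℝ, (∀ x, |g x| ≤ 1) → |∑ h ∈ s, g h| ≤ s.card := by
    intro s g hg
    refine (Finset.abs_sum_le_sum_abs _ _).trans ?_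
    calc ∑ h ∈ s, |g h| ≤ ∑ _h ∈ s, (1 : ℝ) := Finset.sum_le_sum fun x _ => hg x
      _ = s.card := by simp
  have h1 := Finset.sum_filter_add_sum_filter_not (qb d R) (fun h => h + w ∈ qb d R)
    (fun h => f (h + w))
  have h2 := Finset.sum_filter_add_sum_filter_not (qb d R) (fun h => h + -w ∈ qb d R) f
  have h3 : ∑ h ∈ (qb d R).filter (fun h => h + w ∈ qb d R), f (h + w) =
      ∑ h ∈ (qb d R).filter (fun h => h + -w ∈ qb d R), f h := by
    refine Finset.sum_bij' (fun h _ => h + w) (fun h _ => h + -w) ?_ ?_ ?_ ?_ ?_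
    · intro h hh
      rw [Finset.mem_filter] at hh ⊢
      refine ⟨hh.2, ?_⟩
      rw [add_neg_cancel_right]
      exact hh.1
    · intro h hh
      rw [Finset.mem_filter] at hh ⊢
      refine ⟨hh.2, ?_⟩
      rw [neg_add_cancel_right]
      exact hh.1
    · intro h _
      exact add_neg_cancel_right h w
    · intro h _
      exact neg_add_cancel_right h w
    · intro h _
      rfl
  have h4 := hb ((qb d R).filter (fun h => h + w ∉ qb d R)) (fun h => f (h + w)) fun x => hf _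
  have h5 := hb ((qb d R).filter (fun h => h + -w ∉ qb d R)) f hf
  have h6 : (((qb d R).filter (fun h => h + w ∉ qb d R)).card : ℝ) ≤ d * (r * (R : ℝ) ^ (d - 1)) := by
    exact_mod_cast shift_card d R r w hw
  have h7 : (((qb d R).filter (fun h => h + -w ∉ qb d R)).card : ℝ) ≤
      d * (r * (R : ℝ) ^ (d - 1)) := by
    exact_mod_cast shift_card d R r (-w) fun i => by
      rw [Pi.neg_apply, abs_neg]
      exact hw i
  rw [← h1, ← h2, h3]
  have h8 := abs_le.1 h4
  have h9 := abs_le.1 h5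
  rw [abs_le]
  constructor <;> linarith

theorem bx_sum {d : ℕ} (x : Zd d) (r : ℕ) (f : Zd d → ℝ) :
    ∑ y ∈ bx x r, f y = ∑ w ∈ bx (0 : Zd d) r, f (x + w) := by
  refine Finset.sum_bij' (fun y _ => y - x) (fun w _ => x + w) ?_ ?_ ?_ ?_ ?_
  · intro y hy
    unfold bx at hy ⊢
    rw [Fintype.mem_piFinset] at hy ⊢
    intro i
    have h1 := hy i
    rw [Finset.mem_Icc] at h1 ⊢
    have h2 : (y - x) i = y i - x i := rfl
    have h3 : (0 : Zd d) i = 0 := rfl
    rw [h2, h3]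
    omega
  · intro y hy
    unfold bx at hy ⊢
    rw [Fintype.mem_piFinset] at hy ⊢
    intro i
    have h1 := hy i
    rw [Finset.mem_Icc] at h1 ⊢
    have h2 : (x + y) i = x i + y i := rfl
    have h3 : (0 : Zd d) i = 0 := rfl
    rw [h3] at h1
    rw [h2]
    omega
  · intro y _
    exact add_sub_cancel x y
  · intro y _
    exact add_sub_cancel_left x y
  · intro y _
    rw [add_sub_cancel]

theorem bx_card {d : ℕ} (x : Zd d) (r : ℕ) : (bx x r).card = (2 * r + 1) ^ d := by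
  unfold bx
  rw [Fintype.card_piFinset]
  have h1 : ∀ i : Fin d, (Finset.Icc (x i - r) (x i + r)).card = 2 * r + 1 := by
    intro i
    rw [Int.card_Icc]
    omega
  simp only [h1]
  simp

/-- the average over a cube of the difference of a function and its local average -/
theorem cube_avg (d R r : ℕ) (a : Zd d → ℝ) (ha : ∀ x, |a x| ≤ 1) (z : Zd d) :
    |∑ h ∈ qb d R, (a (z + h) - ((bx (z + h) r).card : ℝ)⁻¹ * ∑ y ∈ bx (z + h) r, a y)| ≤
      2 * (d * (r * (R : ℝ) ^ (d - 1))) := by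
  obtain ⟨n, hn⟩ : ∃ n : ℕ, n = (2 * r + 1) ^ d := ⟨_, rfl⟩
  have hn0 : (0 : ℝ) < n := by
    rw [hn]
    positivity
  have hc : (bx (0 : Zd d) r).card = n := by rw [bx_card, hn]
  have e1 : ∑ h ∈ qb d R, (a (z + h) - ((bx (z + h) r).card : ℝ)⁻¹ * ∑ y ∈ bx (z + h) r, a y) =
      (n : ℝ)⁻¹ * ∑ w ∈ bx (0 : Zd d) r,
        (∑ h ∈ qb d R, a (z + h) - ∑ h ∈ qb d R, a (z + (h + w))) := by
    rw [Finset.sum_sub_distrib, Finset.sum_sub_distrib, Finset.sum_const, hc, nsmul_eq_mul, mul_sub,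
      ← mul_assoc, inv_mul_cancel₀ hn0.ne', one_mul, Finset.sum_comm, Finset.mul_sum]
    congr 1
    refine Finset.sum_congr rfl fun h _ => ?_
    rw [bx_card, ← hn, bx_sum]
    simp only [add_assoc]
  rw [e1, abs_mul, abs_of_pos (inv_pos.2 hn0), inv_mul_le_iff₀ hn0]
  refine (Finset.abs_sum_le_sum_abs _ _).trans ?_
  calc ∑ w ∈ bx (0 : Zd d) r, |∑ h ∈ qb d R, a (z + h) - ∑ h ∈ qb d R, a (z + (h + w))|
      ≤ ∑ w ∈ bx (0 : Zd d) r, 2 * (d * (r * (R : ℝ) ^ (d - 1))) := by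
        refine Finset.sum_le_sum fun w hw => ?_
        refine shift_sum d R r w (fun i => ?_) (fun h => a (z + h)) fun x => ha _
        unfold bx at hw
        rw [Fintype.mem_piFinset] at hw
        have h1 := hw i
        rw [Finset.mem_Icc] at h1
        have h3 : (0 : Zd d) i = 0 := rfl
        rw [h3] at h1
        rw [abs_le]
        omega
    _ = n * (2 * (d * (r * (R : ℝ) ^ (d - 1)))) := by
        rw [Finset.sum_const, hc, nsmul_eq_mul]

/-- the positions of the cubes which meet the box -/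
noncomputable def UU (d : ℕ) (b : Zd d) (R L : ℕ) : Finset (Zd d) :=
  Fintype.piFinset fun i => Finset.Icc (b i - L - R + 1) (b i + L)

/-- the positions of the cubes which are contained in the box -/
noncomputable def GD (d : ℕ) (b : Zd d) (R L : ℕ) : Finset (Zd d) :=
  Fintype.piFinset fun i => Finset.Icc (b i - L) (b i + L - R + 1)

theorem card_UU {d : ℕ} {b : Zd d} {R L : ℕ} : (UU d b R L).card = (2 * L + R) ^ d := by
  unfold UU
  rw [Fintype.card_piFinset]
  have h1 : ∀ i : Fin d, (Finset.Icc (b i - L - R + 1) (b i + L)).card = 2 * L + R := by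
    intro i
    rw [Int.card_Icc]
    omega
  simp only [h1]
  simp

theorem card_GD {d : ℕ} {b : Zd d} {R L : ℕ} : (GD d b R L).card = (2 * L + 2 - R) ^ d := by
  unfold GD
  rw [Fintype.card_piFinset]
  have h1 : ∀ i : Fin d, (Finset.Icc (b i - L) (b i + L - R + 1)).card = 2 * L + 2 - R := by
    intro i
    rw [Int.card_Icc]
    omega
  simp only [h1]
  simp

theorem GD_sub {d : ℕ} {b : Zd d} {R L : ℕ} (hR : 1 ≤ R) : GD d b R L ⊆ UU d b R L := by
  intro z hz
  unfold GD at hz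
  unfold UU
  rw [Fintype.mem_piFinset] at hz ⊢
  intro i
  have h1 := hz i
  rw [Finset.mem_Icc] at h1 ⊢
  omega

theorem GD_sub_bx {d : ℕ} {b : Zd d} {R L : ℕ} (hR : 1 ≤ R) : GD d b R L ⊆ bx b L := by
  intro z hz
  unfold GD at hz
  unfold bx
  rw [Fintype.mem_piFinset] at hz ⊢
  intro i
  have h1 := hz i
  rw [Finset.mem_Icc] at h1 ⊢
  omega

theorem GD_in {d : ℕ} {b : Zd d} {R L : ℕ} {z : Zd d} (hz : z ∈ GD d b R L) {h : Zd d}
    (hh : h ∈ qb d R) : z + h ∈ bx b L := by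
  unfold GD at hz
  unfold bx
  rw [mem_qb] at hh
  rw [Fintype.mem_piFinset] at hz ⊢
  intro i
  have h1 := hz i
  have h2 := hh i
  rw [Finset.mem_Icc] at h1 ⊢
  have h3 : (z + h) i = z i + h i := rfl
  rw [h3]
  omega

theorem UU_out {d : ℕ} {b : Zd d} {R L : ℕ} {z : Zd d} (hz : z ∉ UU d b R L) {h : Zd d}
    (hh : h ∈ qb d R) : z + h ∉ bx b L := by
  intro hc
  apply hz
  unfold bx at hc
  unfold UU
  rw [mem_qb] at hh
  rw [Fintype.mem_piFinset] at hc ⊢
  intro i
  have h1 := hc i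
  have h2 := hh i
  rw [Finset.mem_Icc] at h1 ⊢
  have h3 : (z + h) i = z i + h i := rfl
  rw [h3] at h1
  omega

/-- the number of cubes at the boundary -/
theorem bad_card {d : ℕ} (hd : 1 ≤ d) {b : Zd d} {R L : ℕ} (hR : 1 ≤ R) (hRL : R ≤ L) :
    ((UU d b R L \ GD d b R L).card : ℝ) ≤ (d * 2 ^ d) * (R / L) * (2 * L + 1) ^ d := by
  have h1 : (UU d b R L \ GD d b R L).card + (GD d b R L).card = (UU d b R L).card :=
    Finset.card_sdiff_add_card_eq_card (GD_sub hR)
  have h2 : ((UU d b R L \ GD d b R L).card : ℝ) = (2 * L + R : ℝ) ^ d - (2 * L + 2 - R : ℝ) ^ d := by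
    rw [card_UU, card_GD] at h1
    have h3 : (((UU d b R L \ GD d b R L).card + (2 * L + 2 - R) ^ d : ℕ) : ℝ) =
        (((2 * L + R) ^ d : ℕ) : ℝ) := by rw [h1]
    have h4 : ((2 * L + 2 - R : ℕ) : ℝ) = 2 * L + 2 - R := by
      rw [Nat.cast_sub (by omega)]
      push_cast
      ring
    rw [Nat.cast_add, Nat.cast_pow, h4, Nat.cast_pow] at h3
    push_cast at h3
    linarith
  have hR1 : (1 : ℝ) ≤ R := by exact_mod_cast hR
  have hRL' : (R : ℝ) ≤ L := by exact_mod_cast hRL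
  have hL0 : (0 : ℝ) < L := by linarith
  have h3 := abs_pow_sub_pow_le (2 * L + R : ℝ) (2 * L + 2 - R : ℝ) d
  have h4 : max |(2 * L + R : ℝ)| |(2 * L + 2 - R : ℝ)| ≤ 2 * (2 * L + 1) := by
    rw [abs_of_nonneg (by linarith), abs_of_nonneg (by linarith)]
    exact max_le (by linarith) (by linarith)
  have h5 : |(2 * L + R : ℝ) - (2 * L + 2 - R)| ≤ 2 * R := by
    rw [abs_of_nonneg (by linarith)]
    linarith
  rw [h2]
  refine (le_abs_self _).trans (h3.trans ?_)
  obtain ⟨k, rfl⟩ : ∃ k, d = k + 1 := ⟨d - 1, by omega⟩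
  rw [Nat.add_sub_cancel]
  have h6 : (max |(2 * L + R : ℝ)| |(2 * L + 2 - R : ℝ)|) ^ k ≤ (2 * (2 * L + 1)) ^ k :=
    pow_le_pow_left₀ (le_max_of_le_left (abs_nonneg _)) h4 k
  have h7 : (R : ℝ) ≤ R / L * (2 * L + 1) := by
    have : (R : ℝ) / L * (2 * L + 1) = 2 * R + R / L := by
      field_simp
    rw [this]
    have : (0 : ℝ) ≤ R / L := by positivity
    linarith
  calc |(2 * L + R : ℝ) - (2 * L + 2 - R)| * ((k + 1 : ℕ) : ℝ) *
        (max |(2 * L + R : ℝ)| |(2 * L + 2 - R : ℝ)|) ^ k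
      ≤ (2 * R) * ((k + 1 : ℕ) : ℝ) * (2 * (2 * L + 1)) ^ k := by
        refine mul_le_mul ?_ h6 (by positivity) (by positivity)
        exact mul_le_mul_of_nonneg_right h5 (by positivity)
    _ = ((k + 1 : ℕ) : ℝ) * 2 ^ (k + 1) * R * (2 * L + 1) ^ k := by
        rw [mul_pow]
        ring
    _ ≤ ((k + 1 : ℕ) : ℝ) * 2 ^ (k + 1) * (R / L * (2 * L + 1)) * (2 * L + 1) ^ k := by
        refine mul_le_mul_of_nonneg_right ?_ (by positivity)
        exact mul_le_mul_of_nonneg_left h7 (by positivity)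
    _ = ((k + 1 : ℕ) : ℝ) * 2 ^ (k + 1) * (R / L) * (2 * L + 1) ^ (k + 1) := by
        ring

/-- the summand -/
noncomputable def gt {d : ℕ} (a : Zd d → ℝ) (r : ℕ) (x : Zd d) : ℝ :=
  (a x - ((bx x r).card : ℝ)⁻¹ * ∑ y ∈ bx x r, a y) / 2

theorem gt_le {d : ℕ} {a : Zd d → ℝ} (ha : ∀ x, |a x| ≤ 1) (r : ℕ) (x : Zd d) :
    |gt a r x| ≤ 1 := by
  have h1 : |((bx x r).card : ℝ)⁻¹ * ∑ y ∈ bx x r, a y| ≤ 1 := by
    have hc : (0 : ℝ) < (bx x r).card := by
      rw [bx_card]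
      positivity
    rw [abs_mul, abs_of_pos (inv_pos.2 hc), inv_mul_le_iff₀ hc, mul_one]
    refine (Finset.abs_sum_le_sum_abs _ _).trans ?_
    calc ∑ y ∈ bx x r, |a y| ≤ ∑ _y ∈ bx x r, (1 : ℝ) := Finset.sum_le_sum fun y _ => ha y
      _ = (bx x r).card := by simp
  unfold gt
  have h2 := abs_le.1 h1
  have h3 := abs_le.1 (ha x)
  rw [abs_le]
  constructor <;> linarith

/-- the cube average -/
noncomputable def Fz {d : ℕ} (a : Zd d → ℝ) (b : Zd d) (r R L : ℕ) (z : Zd d) : ℝ :=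
  ((R : ℝ) ^ d)⁻¹ * ∑ h ∈ qb d R, (if z + h ∈ bx b L then gt a r (z + h) else 0)

theorem Fz_le {d : ℕ} {a : Zd d → ℝ} (ha : ∀ x, |a x| ≤ 1) (b : Zd d) (r : ℕ) {R : ℕ} (L : ℕ)
    (hR : 1 ≤ R) (z : Zd d) : |Fz a b r R L z| ≤ 1 := by
  have hR1 : (0 : ℝ) < (R : ℝ) ^ d := by
    have : (0 : ℝ) < R := by exact_mod_cast hR
    positivity
  unfold Fz
  rw [abs_mul, abs_of_pos (inv_pos.2 hR1), inv_mul_le_iff₀ hR1, mul_one]
  refine (Finset.abs_sum_le_sum_abs _ _).trans ?_
  calc ∑ h ∈ qb d R, |if z + h ∈ bx b L then gt a r (z + h) else 0| ≤ ∑ _h ∈ qb d R, (1 : ℝ) := by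
        refine Finset.sum_le_sum fun h _ => ?_
        split_ifs
        · exact gt_le ha r _
        · simp
    _ = (R : ℝ) ^ d := by
        rw [Finset.sum_const, card_qb]
        simp

theorem Fz_good {d : ℕ} (hd : 1 ≤ d) {a : Zd d → ℝ} (ha : ∀ x, |a x| ≤ 1) (b : Zd d) (r : ℕ)
    {R L : ℕ} (hR : 1 ≤ R) {z : Zd d} (hz : z ∈ GD d b R L) : |Fz a b r R L z| ≤ d * r / R := by
  have hR0 : (0 : ℝ) < R := by exact_mod_cast hR
  have hR1 : (0 : ℝ) < (R : ℝ) ^ d := by positivity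
  have e1 : ∑ h ∈ qb d R, (if z + h ∈ bx b L then gt a r (z + h) else 0) =
      (∑ h ∈ qb d R, (a (z + h) - ((bx (z + h) r).card : ℝ)⁻¹ * ∑ y ∈ bx (z + h) r, a y)) / 2 := by
    rw [Finset.sum_div]
    refine Finset.sum_congr rfl fun h hh => ?_
    rw [if_pos (GD_in hz hh)]
    rfl
  unfold Fz
  rw [e1, abs_mul, abs_of_pos (inv_pos.2 hR1), inv_mul_le_iff₀ hR1, abs_div, abs_two]
  have h1 := cube_avg d R r a ha z
  have h2 : (R : ℝ) ^ d * (d * r / R) = d * (r * (R : ℝ) ^ (d - 1)) := by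
    obtain ⟨k, rfl⟩ : ∃ k, d = k + 1 := ⟨d - 1, by omega⟩
    rw [Nat.add_sub_cancel]
    field_simp
    ring
  rw [h2]
  linarith

theorem Fz_out {d : ℕ} (a : Zd d → ℝ) (b : Zd d) (r : ℕ) {R L : ℕ} {z : Zd d}
    (hz : z ∉ UU d b R L) : Fz a b r R L z = 0 := by
  unfold Fz
  rw [Finset.sum_eq_zero, mul_zero]
  intro h hh
  rw [if_neg (UU_out hz hh)]

theorem cube_main (d : ℕ) (hd : 1 ≤ d) (a : Zd d → ℝ) (b : Zd d) (r R L : ℕ) (ha : ∀ x, |a x| ≤ 1)
    (hR : 1 ≤ R) (hRL : R ≤ L) : ∑' z : Zd d, (Fz a b r R L z) ^ 2 ≤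
      ((d * r / R) ^ 2 + (d * 2 ^ d) * (R / L)) * (bx b L).card := by
  classical
  rw [tsum_eq_sum (s := UU d b R L) fun z hz => by rw [Fz_out a b r hz]; simp]
  rw [← Finset.sum_sdiff (GD_sub (b := b) (L := L) hR)]
  have h1 : ∑ z ∈ UU d b R L \ GD d b R L, (Fz a b r R L z) ^ 2 ≤
      ((UU d b R L \ GD d b R L).card : ℝ) := by
    calc ∑ z ∈ UU d b R L \ GD d b R L, (Fz a b r R L z) ^ 2 ≤
          ∑ _z ∈ UU d b R L \ GD d b R L, (1 : ℝ) := by
          refine Finset.sum_le_sum fun z _ => ?_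
          rw [← sq_abs]
          exact pow_le_one₀ (abs_nonneg _) (Fz_le ha b r L hR z)
      _ = _ := by simp
  have h2 : ∑ z ∈ GD d b R L, (Fz a b r R L z) ^ 2 ≤ (d * r / R) ^ 2 * (bx b L).card := by
    calc ∑ z ∈ GD d b R L, (Fz a b r R L z) ^ 2 ≤ ∑ _z ∈ GD d b R L, ((d : ℝ) * r / R) ^ 2 := by
          refine Finset.sum_le_sum fun z hz => ?_
          rw [← sq_abs]
          exact pow_le_pow_left₀ (abs_nonneg _) (Fz_good hd ha b r hR hz) 2
      _ = ((d : ℝ) * r / R) ^ 2 * (GD d b R L).card := by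
          rw [Finset.sum_const, nsmul_eq_mul, mul_comm]
      _ ≤ _ := by
          refine mul_le_mul_of_nonneg_left ?_ (sq_nonneg _)
          exact_mod_cast Finset.card_le_card (GD_sub_bx hR)
  have h3 := bad_card hd (b := b) hR hRL
  have h4 : ((bx b L).card : ℝ) = (2 * L + 1) ^ d := by
    rw [bx_card]
    push_cast
    rfl
  have h5 : ((UU d b R L \ GD d b R L).card : ℝ) ≤ (d * 2 ^ d) * (R / L) * (bx b L).card := by
    rw [h4]
    exact h3
  rw [add_mul]
  linarith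

end Pool.Agent.Q176.LE
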