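import Pool.Agent.Q176.LE.Cube
import Pool.Agent.Q218.LE.Stm

set_option autoImplicit false

/-! Job LE-CUBE of helper218. -/

namespace Pool.Agent.Q176.LE

open Pool.Agent.H4R2.LO (Zd bx)

/-- **Averages over cubes of a function minus its local average.** -/
theorem t_CUBE : Pool.Agent.Q218.LE.S_CUBE := by
  intro d hd
  refine ⟨d * 2 ^ d, by positivity, fun a b r R L ha hR hRL => ?_⟩
  refine le_trans (le_of_eq (tsum_congr fun z => ?_)) (cube_main d hd a b r R L ha hR hRL)
  have e1 : (((R : ℝ) ^ d)⁻¹ : ℂ) *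
      ∑ h ∈ Fintype.piFinset (fun _ : Fin d => Finset.Ico (0 : ℤ) R),
        (if z + h ∈ bx b L then
          (((a (z + h) - ((bx (z + h) r).card : ℝ)⁻¹ * ∑ y ∈ bx (z + h) r, a y) / 2 : ℝ) : ℂ)
          else 0) = ((Fz a b r R L z : ℝ) : ℂ) := by
    unfold Fz
    rw [Complex.ofReal_mul, Complex.ofReal_sum, Complex.ofReal_inv, Complex.ofReal_pow]
    congr 1
    refine Finset.sum_congr rfl fun h _ => ?_
    split_ifs
    · rfl
    · rw [Complex.ofReal_zero]
  rw [e1, Complex.norm_real, Real.norm_eq_abs, sq_abs]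

end Pool.Agent.Q176.LE
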